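import Pool.Agent.Q56.OM.Near

/-!
# Independence of one coordinate of arbitrary events of the others, for all tuples of shifts in boxes around almost all
tuples of members of real sequences
-/

set_option autoImplicit false

namespace Pool.Agent.Q56.OM

open Finset Polynomial
open Pool.Agent.TH823.OP (cn ind ind_bd fam fam_sh df df_bd cn_diff cn_close big_count om_count J_exists allJ)
open Pool.Agent.TH823.KB
open Pool.Agent.TH823.PS (NE GoodF PolyG tuple_count')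
open Pool.Agent.TH823.EL (scale_root)
open Pool.Agent.H373R2.T7 (exI)
open Pool.Agent.Q56.TF (WG Base wg_of_good)
open ArithmeticFunction (cardFactors)
open scoped ComplexConjugate

/-- the tuple `h` is in the box of radius `W` around the members with the indices `m` -/
def Nb {k : ℕ} (β : Fin k → ℝ) (f : Fin k → ℕ → ℝ) (W : ℝ) (m h : Fin k → ℕ) : Prop :=
  ∀ i, |(h i : ℝ) - (β i + f i (m i))| ≤ W

open Classical in
/-- the count for the near invariance -/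
lemma count_one {A k N s : ℕ} {f : Fin (k + 1) → ℕ → ℝ} {c : Fin (k + 1) → ℝ} {e δ δ' : ℝ} (hA : 1 ≤ A) (hN : 1 ≤ N)
    (hδ0 : 0 ≤ δ') (hδ : δ' ≤ δ) (hG : ∀ S : Set ℕ, ∀ i, WG (df s (fam S) 0) A e δ (f i) (c i) N)
    (x : Fin (k + 1) → ℕ) (hx : ∀ i, (x i : ℝ) ^ (c i) ≤ A * N ∧ (N : ℝ) ^ (1 - δ) ≤ (x i : ℝ) ^ (c i))
    (β : Fin (k + 1) → ℝ) (hβ : ∀ i, |β i| ≤ A * N) (i : Fin (k + 1)) (S : Set ℕ) (T : Set (Fin k → ℕ)) :
    (((Fintype.piFinset fun i => Icc 1 (x i)).filter fun m => ∃ h : Fin (k + 1) → ℕ, Nb β f ((N : ℝ) ^ δ') m h ∧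
      BadOne N s e i S T h).card : ℝ) ≤ (∏ i, (x i : ℝ)) * ((7 : ℝ) ^ k * (N : ℝ) ^ (k * δ') * (N : ℝ) ^ (-δ)) := by
  refine tuples_gen (F := f) hN hδ0 hδ (by positivity) (i₀ := i) x β
    (fun b' b => ∃ X ≤ N, e * N < ‖∑ n ∈ Icc 1 X, ind T (fun j => cardFactors ((n : ℤ) + b' j).toNat) *
      exI (df s (fam S) 0) ((1 : ℕ) * n + b)‖) ?_ _ ?_
  · intro b' S' hS' hb
    refine hG S i (x i) (hx i).1 (hx i).2 (β i) (hβ i) 1 le_rfl
      (fun n => ind T (fun j => cardFactors ((n : ℤ) + b' j).toNat)) (fun n => ind_bd _ _) S' hS' ?_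
    intro m hm
    obtain ⟨b, hb1, X, hX, hb2⟩ := hb m hm
    exact ⟨b, hb1, X, Nat.mul_le_mul hA hX, hb2⟩
  · rintro m ⟨h, hnb, X, hX, hbig⟩
    refine ⟨fun i => (h i : ℤ), fun i => by exact_mod_cast hnb i, X, hX, lt_of_lt_of_eq hbig ?_⟩
    congr 1

open Classical in
/-- the count for the slowly varying part -/
lemma count_two {A A2 k N M s : ℕ} {f : Fin (k + 1) → ℕ → ℝ} {c : Fin (k + 1) → ℝ} {e e2 δ δ' δ1 : ℝ} (hA : 1 ≤ A)
    (hN : 1 ≤ N) (hM : 1 ≤ M) (hs : 1 ≤ s) (hδ0 : 0 ≤ δ') (hδ : δ' ≤ δ) (he : e < 1 / 4) (he2 : 0 < e2)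
    (hMδ : 1 / (M : ℝ) ≤ δ1)
    (hpair : ∀ G : ℕ → ℂ, (∀ l, ‖G l‖ ≤ 1) → (∀ a b, ‖G a - G b‖ ≤ δ1 * |(a : ℝ) - b|) → ∀ h h' : ℕ, h ≤ A2 * N →
      h' ≤ A2 * N → h ≠ h' → ‖∑ n ∈ Ioc 0 N, (G (cardFactors (n + h)) - gam N G) *
        conj (G (cardFactors (n + h')) - gam N G)‖ ≤ 3 * (e2 ^ 2 / 12) * N)
    (hG : ∀ S : Set ℕ, ∀ i, WG (df s (fam S) 0) A e δ (f i) (c i) N)
    (x : Fin (k + 1) → ℕ) (hx : ∀ i, (x i : ℝ) ^ (c i) ≤ A * N ∧ (N : ℝ) ^ (1 - δ) ≤ (x i : ℝ) ^ (c i))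
    (β : Fin (k + 1) → ℝ) (hβ : ∀ i, |β i| ≤ A * N)
    (hrange : ∀ m ∈ Fintype.piFinset fun i => Icc 1 (x i), ∀ h : Fin (k + 1) → ℕ, Nb β f ((N : ℝ) ^ δ') m h →
      ∀ i, h i ≤ A2 * N)
    (i : Fin (k + 1)) (S0 : Set ℕ) (T0 : Set (Fin k → ℕ)) :
    (((Fintype.piFinset fun i => Icc 1 (x i)).filter fun m => ∃ h : Fin (k + 1) → ℕ, Nb β f ((N : ℝ) ^ δ') m h ∧
      bad2 N M s e2 i S0 T0 h).card : ℝ) ≤
      (∏ i, (x i : ℝ)) * ((7 : ℝ) ^ k * (N : ℝ) ^ (k * δ') * (6 / e2 ^ 2 * (N : ℝ) ^ (-δ))) := by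
  obtain ⟨G, hGd⟩ : ∃ G : ℕ → ℂ, G = Gf M s {l | l / s ∈ S0} := ⟨_, rfl⟩
  have hGb : ∀ l, ‖G l‖ ≤ 1 := fun l => by rw [hGd]; exact Gf_bd hM _ _
  have hGL : ∀ a b, ‖G a - G b‖ ≤ δ1 * |(a : ℝ) - b| := fun a b => by
    rw [hGd]
    exact (Gf_lip hM hs S0 a b).trans (mul_le_mul_of_nonneg_right hMδ (abs_nonneg _))
  have hfil : ((Fintype.piFinset fun i => Icc 1 (x i)).filter fun m => ∃ h : Fin (k + 1) → ℕ,
      Nb β f ((N : ℝ) ^ δ') m h ∧ bad2 N M s e2 i S0 T0 h) =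
      ((Fintype.piFinset fun i => Icc 1 (x i)).filter fun m => ∃ h : Fin (k + 1) → ℕ,
      Nb β f ((N : ℝ) ^ δ') m h ∧ (∀ i, h i ≤ A2 * N) ∧ bad2 N M s e2 i S0 T0 h) := by
    apply filter_congr
    intro m hm
    constructor
    · rintro ⟨h, h1, h2⟩
      exact ⟨h, h1, hrange m hm h h1, h2⟩
    · rintro ⟨h, h1, _, h2⟩
      exact ⟨h, h1, h2⟩
  rw [hfil]
  refine tuples_gen (F := f) hN hδ0 hδ (by positivity) (i₀ := i) x β
    (fun b' b => ∃ hb : ℕ, b = hb ∧ hb ≤ A2 * N ∧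
      e2 * N < ‖∑ n ∈ Ioc 0 N, ind T0 (fun j => cardFactors ((n : ℤ) + b' j).toNat) *
        (G (cardFactors (n + hb)) - gam N G)‖) ?_ _ ?_
  · intro b' S' hS' hb
    obtain ⟨Hb, hHb⟩ : ∃ Hb : Finset ℕ, Hb = (range (A2 * N + 1)).filter (fun hb =>
      e2 * N < ‖∑ n ∈ Ioc 0 N, ind T0 (fun j => cardFactors ((n : ℤ) + b' j).toNat) *
        (G (cardFactors (n + hb)) - gam N G)‖) := ⟨_, rfl⟩
    have h2 := dual_count (ε := e2) (e := 3 * (e2 ^ 2 / 12)) hN he2 (by positivity) (by linarith)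
      (fun n => ind T0 (fun j => cardFactors ((n : ℤ) + b' j).toNat)) (fun n => ind_bd _ _)
      (fun m n => G (cardFactors (n + m)) - gam N G) (fun m n =>
        (norm_sub_le _ _).trans ((add_le_add (hGb _) (gam_bd hN hGb)).trans (by norm_num)))
      Hb (by
        intro h hh h' hh' hne
        rw [hHb, mem_filter, mem_range] at hh hh'
        exact hpair G hGb hGL h h' (by omega) (by omega) hne) (by
        intro m hm
        rw [hHb, mem_filter] at hm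
        exact hm.2)
    have hsub : S' ⊆ Hb.biUnion (fun hb => S'.filter (fun m => |(hb : ℝ) - (β i + f i m)| ≤ (N : ℝ) ^ δ)) := by
      intro m hm
      obtain ⟨b, hb1, hb, rfl, hb2, hb3⟩ := hb m hm
      rw [mem_biUnion]
      refine ⟨hb, ?_, mem_filter.2 ⟨hm, by exact_mod_cast hb1⟩⟩
      rw [hHb, mem_filter, mem_range]
      exact ⟨by omega, hb3⟩
    have hone : ∀ hb ∈ Hb, ((S'.filter (fun m => |(hb : ℝ) - (β i + f i m)| ≤ (N : ℝ) ^ δ)).card : ℝ) ≤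
        x i * (N : ℝ) ^ (-δ) := fun hb _ =>
      mult_of_wg hs hA hN he (hG (alt s) i) (hx i).1 (hx i).2 (hβ i) hb _ ((filter_subset _ _).trans hS')
        (fun m hm => (mem_filter.1 hm).2)
    calc (S'.card : ℝ) ≤ ((Hb.biUnion (fun hb => S'.filter (fun m => |(hb : ℝ) - (β i + f i m)| ≤
          (N : ℝ) ^ δ))).card : ℝ) := by exact_mod_cast card_le_card hsub
      _ ≤ ∑ hb ∈ Hb, ((S'.filter (fun m => |(hb : ℝ) - (β i + f i m)| ≤ (N : ℝ) ^ δ)).card : ℝ) := by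
          exact_mod_cast card_biUnion_le
      _ ≤ ∑ _hb ∈ Hb, (x i : ℝ) * (N : ℝ) ^ (-δ) := sum_le_sum hone
      _ = Hb.card * (x i * (N : ℝ) ^ (-δ)) := by rw [sum_const, nsmul_eq_mul]
      _ ≤ 6 / e2 ^ 2 * (x i * (N : ℝ) ^ (-δ)) := mul_le_mul_of_nonneg_right h2 (by positivity)
      _ = _ := by ring
  · rintro m ⟨h, hnb, hr, hbig⟩
    refine ⟨fun i => (h i : ℤ), fun i => by exact_mod_cast hnb i, h i, rfl, hr i, ?_⟩
    rw [hGd]
    refine lt_of_lt_of_eq hbig ?_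
    congr 1

open Classical in
/-- **independence of one coordinate of arbitrary events of the others, in boxes around real sequences** -/
theorem full_win (E01 A k : ℕ) (f : Fin (k + 1) → ℕ → ℝ) (c : Fin (k + 1) → ℝ) (hf : ∀ i, Base (f i) (c i))
    (hc : ∀ i, 1 ≤ c i) {ε : ℝ} (hε : 0 < ε) (hε1 : ε ≤ 1) : ∃ E D : ℕ, E01 < E ∧ 6 * E + 2 ≤ D ∧
    ∃ δ : ℝ, 0 < δ ∧ ∃ N₀ : ℕ, ∀ N : ℕ, N₀ ≤ N → ∀ x : Fin (k + 1) → ℕ,
    (∀ i, (x i : ℝ) ^ (c i) ≤ A * N ∧ (N : ℝ) ^ (1 - δ) ≤ (x i : ℝ) ^ (c i)) →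
    ∀ β : Fin (k + 1) → ℝ, (∀ i, |β i| ≤ A * N) →
    ∀ s : ℕ, s = 1 ∧ NE 6 E ⌊(N : ℝ) ^ (1 / (2 * D : ℝ))⌋₊ ∨ s = 2 →
    (((Fintype.piFinset fun i => Icc 1 (x i)).filter fun m => ∃ h : Fin (k + 1) → ℕ, Nb β f ((N : ℝ) ^ δ) m h ∧
      ¬ (∀ (i : Fin (k + 1)) (S : Set ℕ) (T : Set (Fin k → ℕ)), |cn N h i {l | l / s ∈ S} T / N -
          (p1 N 0 {l | l / s ∈ S} / N) * (cn N h i Set.univ T / N)| ≤ ε)).card : ℝ) ≤
      (∏ i, (x i : ℝ)) * (N : ℝ) ^ (-δ) := by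
  -- growth of the sequences
  obtain ⟨K, hK⟩ : ∃ K : ℕ, ∀ i, ∀ N x m : ℕ, (x : ℝ) ^ (c i) ≤ (A + 1 : ℕ) * N → 1 ≤ m → m ≤ x → |f i m| ≤ K * N := by
    choose p E0 x₀ Dc hD h1 h2 using hf
    obtain ⟨K, hK⟩ := exists_nat_ge ((∑ i, Dc i) * (A + 1 : ℕ))
    refine ⟨K, fun i N x m hx hm1 hm2 => ?_⟩
    have h3 : Dc i ≤ ∑ i, Dc i := single_le_sum (f := Dc) (fun j _ => (hD j).le) (mem_univ i)
    have hN : (0 : ℝ) ≤ N := Nat.cast_nonneg N
    calc |f i m| ≤ Dc i * (x : ℝ) ^ (c i) := h2 i x m hm1 hm2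
      _ ≤ (∑ i, Dc i) * ((A + 1 : ℕ) * N) :=
          mul_le_mul h3 hx (by positivity) (sum_nonneg fun j _ => (hD j).le)
      _ = ((∑ i, Dc i) * (A + 1 : ℕ)) * N := by ring
      _ ≤ K * N := mul_le_mul_of_nonneg_right hK hN
  obtain ⟨A2, hA2⟩ : ∃ A2 : ℕ, A2 = A + K + 3 := ⟨_, rfl⟩
  set e2 : ℝ := ε / 4 with he2
  have he20 : 0 < e2 := by positivity
  obtain ⟨δ1, hδ1, N1, hpair⟩ := pair_small A2 (e := e2 ^ 2 / 12) (by positivity)
  obtain ⟨M, hM⟩ := exists_nat_ge (1 / δ1)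
  have hM0 : (0 : ℝ) < M := lt_of_lt_of_le (by positivity) hM
  have hM1 : 1 ≤ M := by exact_mod_cast (Nat.pos_of_ne_zero (by rintro rfl; simp at hM0) : 0 < M)
  have hMr1 : (1 : ℝ) ≤ M := by exact_mod_cast hM1
  have hMδ : 1 / (M : ℝ) ≤ δ1 := by
    rw [div_le_iff₀ hδ1] at hM
    rw [div_le_iff₀ hM0]
    linarith
  set ε' : ℝ := ε / (24 * M) with hε'
  have hε'0 : 0 < ε' := by positivity
  have hε'24 : ε' ≤ ε / 24 := by
    rw [hε']
    apply div_le_div_of_nonneg_left hε.le (by norm_num)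
    linarith
  have hsmall : 3 * M * ε' = ε / 8 := by
    rw [hε']
    field_simp
    norm_num
  obtain ⟨P, B, hP1, hAB, hwg⟩ := wg_of_good (A + 1) f c hf hc
  obtain ⟨E, D, hE, hD, δ0, hδ0, Q0, hQ03, hQ0⟩ := allJ E01 B 1 P (P := fun _ : Unit => (X : ℤ[X]))
    (fun _ => by rw [natDegree_X]) (ε := ε' / 8) (by positivity)
  obtain ⟨δw, hδw, hδw1, N2, hN2⟩ := hwg δ0 hδ0
  obtain ⟨N3, hN3⟩ := small_power δ0 hδ0 (ε' / 8) (by positivity)
  obtain ⟨C, hC, hom⟩ := om_count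
  set Kc : ℝ := 16 * ((A2 : ℝ) + 1) * (2 + C) * (k + 1) / ε' with hKc
  obtain ⟨N4, hN4⟩ := J_exists Kc (δw / 8) (by positivity) (by positivity) k
  obtain ⟨N5, hN5⟩ := power_beats (2 ^ (2 * M) * (6 / e2 ^ 2)) (δw / 8) (by positivity)
  obtain ⟨N6, hN6⟩ := power_beats 2 (δw / 8) (by positivity)
  obtain ⟨N7, hN7⟩ := scale_root D (by omega) Q0
  obtain ⟨N8, hN8⟩ := power_beats ((7 : ℝ) ^ k) (δw / 8) (by positivity)
  have hk0 : (0 : ℝ) < (k : ℝ) + 1 := by positivity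
  obtain ⟨δ, hδd⟩ : ∃ δ : ℝ, δ = δw / (8 * (k + 1)) := ⟨_, rfl⟩
  have hδ : 0 < δ := by rw [hδd]; positivity
  have hk8 : (8 * (k + 1) : ℝ) * δ = δw := by rw [hδd]; field_simp
  have hδ8 : δ ≤ δw / 8 := by nlinarith [(Nat.cast_nonneg k : (0 : ℝ) ≤ k)]
  have hkδ : (k : ℝ) * δ ≤ δw / 8 := by nlinarith
  refine ⟨E, D, hE, hD, δ, hδ, N1 + N2 + N3 + N4 + N5 + N6 + N7 + N8 + A2 + 3, fun N hN x hx β hβ s hs => ?_⟩
  have hs1 : 1 ≤ s := by rcases hs with ⟨rfl, _⟩ | rfl <;> omega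
  have hs2 : s ≤ 2 := by rcases hs with ⟨rfl, _⟩ | rfl <;> omega
  have hN1 : 1 ≤ N := by omega
  have hNr : (1 : ℝ) < N := by exact_mod_cast (by omega : 1 < N)
  have hN0 : (0 : ℝ) < N := by linarith
  obtain ⟨J, hll, hJ, hcount⟩ := hN4 N (by omega)
  obtain ⟨g1, g2, g3⟩ := hN7 N (by omega)
  have hgood : ∀ S : Set ℕ, GoodF (df s (fam S) 0) B 1 P (ε' / 8) δ0 N ∧
      PolyG (df s (fam S) 0) B 1 (X : ℤ[X]) (ε' / 8) δ0 N := fun S => by
    have h1 := hQ0 _ g1 s hs (fam S) (fam_sh S _ _) N g2 g3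
    exact ⟨h1.1, h1.2 ()⟩
  have hG : ∀ S : Set ℕ, ∀ i, WG (df s (fam S) 0) (A + 1) (ε' / 8) δw (f i) (c i) N := fun S i =>
    hN2 N (by omega) _ _ (by positivity) (hgood S).1 i
  have h1 : ∀ S, |p1 N 0 {l | l + s ∈ S} - p1 N 0 S| ≤ 2 * ε' * N := by
    intro S
    refine (p1_inv (B := B) (by omega) (by omega) hδ0 (by positivity) (fun S => (hgood S).2) (hN3 N (by omega)) S).trans ?_
    apply mul_le_mul_of_nonneg_right _ hN0.le
    linarith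
  -- the ranges
  have hx' : ∀ i, (x i : ℝ) ^ (c i) ≤ (A + 1 : ℕ) * N ∧ (N : ℝ) ^ (1 - δw) ≤ (x i : ℝ) ^ (c i) := fun i =>
    ⟨(hx i).1.trans (mul_le_mul_of_nonneg_right (by push_cast; linarith) hN0.le),
      (Real.rpow_le_rpow_of_exponent_le hNr.le (by linarith)).trans (hx i).2⟩
  have hβ' : ∀ i, |β i| ≤ (A + 1 : ℕ) * N := fun i =>
    (hβ i).trans (mul_le_mul_of_nonneg_right (by push_cast; linarith) hN0.le)
  have hrange : ∀ m ∈ Fintype.piFinset fun i => Icc 1 (x i), ∀ h : Fin (k + 1) → ℕ, Nb β f ((N : ℝ) ^ δ) m h →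
      ∀ i, h i ≤ A2 * N := by
    intro m hm h hh i
    rw [Fintype.mem_piFinset] at hm
    have h2 := mem_Icc.1 (hm i)
    have h3 := hK i N (x i) (m i) (hx' i).1 h2.1 h2.2
    have h4 := (abs_le.1 (hh i)).2
    have h5 := (abs_le.1 (hβ i)).2
    have h6 := (abs_le.1 h3).2
    have h7 : (N : ℝ) ^ δ ≤ N := by
      calc (N : ℝ) ^ δ ≤ (N : ℝ) ^ (1 : ℝ) := Real.rpow_le_rpow_of_exponent_le hNr.le (by linarith)
        _ = N := Real.rpow_one _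
    have h8 : (h i : ℝ) ≤ (A + K + 3) * N := by nlinarith
    rw [hA2]
    exact_mod_cast h8
  -- the exceptional set
  set US : Finset (Finset ℕ) := (range (J + 3)).powerset with hUS
  set US2 : Finset (Finset ℕ) := (range (J + 2 * M + 1)).powerset with hUS2
  set UT : Finset (Finset (Fin k → ℕ)) := (Fintype.piFinset fun _ : Fin k => range (J + 1)).powerset with hUT
  set box := Fintype.piFinset fun i => Icc 1 (x i) with hbox
  set B1 := ((univ : Finset (Fin (k + 1))) ×ˢ (US ×ˢ UT)).biUnion fun q =>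
        box.filter (fun m => ∃ h : Fin (k + 1) → ℕ, Nb β f ((N : ℝ) ^ δ) m h ∧
          BadOne N s (ε' / 8) q.1 (q.2.1 : Set ℕ) (q.2.2 : Set (Fin k → ℕ)) h) with hB1
  set B2 := ((univ : Finset (Fin (k + 1))) ×ˢ (US2 ×ˢ UT)).biUnion fun q =>
        box.filter (fun m => ∃ h : Fin (k + 1) → ℕ, Nb β f ((N : ℝ) ^ δ) m h ∧
          bad2 N M s e2 q.1 (q.2.1 : Set ℕ) (q.2.2 : Set (Fin k → ℕ)) h) with hB2
  have hsub : (box.filter fun m => ∃ h : Fin (k + 1) → ℕ, Nb β f ((N : ℝ) ^ δ) m h ∧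
      ¬ (∀ (i : Fin (k + 1)) (S : Set ℕ) (T : Set (Fin k → ℕ)), |cn N h i {l | l / s ∈ S} T / N -
          (p1 N 0 {l | l / s ∈ S} / N) * (cn N h i Set.univ T / N)| ≤ ε)) ⊆ B1 ∪ B2 := by
    intro m hm
    rw [mem_filter] at hm
    obtain ⟨hm1, h, hnb, hbad⟩ := hm
    by_contra hcon
    rw [mem_union, not_or] at hcon
    obtain ⟨hc1, hc2⟩ := hcon
    have hhA : ∀ j, h j ≤ A2 * N := hrange m hm1 h hnb
    have hbig := big_count hom hC (by omega : A2 + 1 ≤ N) (by omega) hll hJ hε'0 h hhA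
    have hbig1 : (((Icc 1 N).filter fun n => J < cardFactors n).card : ℝ) ≤ ε' / 8 * N := by
      have h3 := big_count (k := 0) hom hC (by omega : A2 + 1 ≤ N) (by omega) hll (J := J) (ε := ε') (by
        refine le_trans ?_ hJ
        apply mul_le_mul_of_nonneg_right _ (by linarith)
        rw [hKc]
        apply div_le_div_of_nonneg_right _ (by positivity)
        apply mul_le_mul_of_nonneg_left _ (by positivity)
        have : (0 : ℝ) ≤ k := Nat.cast_nonneg k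
        push_cast
        linarith) (by positivity) (fun _ => 0) (fun _ => Nat.zero_le _)
      refine le_trans (le_of_eq ?_) h3
      congr 2
      apply filter_congr
      intro n _
      simp
    have hinv := near_one hε'0 hs2 h hbig (by
      intro i S0 hS0 T0 hT0 h3
      apply hc1
      rw [hB1, mem_biUnion]
      exact ⟨(i, S0, T0), mem_product.2 ⟨mem_univ _, mem_product.2 ⟨hS0, hT0⟩⟩, mem_filter.2 ⟨hm1, h, hnb, h3⟩⟩)
    have hfin : ∀ i, ∀ S0 ∈ US2, ∀ T0 ∈ UT, ‖∑ n ∈ Ioc 0 N, ind (T0 : Set (Fin k → ℕ)) (oth h i n) *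
        (Gf M s {l | l / s ∈ (S0 : Set ℕ)} (cardFactors (n + h i)) -
          gam N (Gf M s {l | l / s ∈ (S0 : Set ℕ)}))‖ ≤ e2 * N := by
      intro i S0 hS0 T0 hT0
      by_contra h3
      push Not at h3
      apply hc2
      rw [hB2, mem_biUnion]
      exact ⟨(i, S0, T0), mem_product.2 ⟨mem_univ _, mem_product.2 ⟨hS0, hT0⟩⟩, mem_filter.2 ⟨hm1, h, hnb, h3⟩⟩
    apply hbad
    intro i S T
    have h3 := dec_all hN1 hM1 hs2 h i hbig hbig1 (hfin i) S T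
    have h4 := indep_full hN1 hM1 hε'0.le h i (fun S T => hinv i S T N le_rfl) h1 {l | l / s ∈ S} T h3
    refine h4.trans ?_
    rw [hsmall, he2]
    linarith
  have hPnn : 0 ≤ ∏ i, (x i : ℝ) := prod_nonneg fun _ _ => Nat.cast_nonneg _
  have h7k := hN8 N (by omega)
  have hkN : (N : ℝ) ^ (k * δ) ≤ (N : ℝ) ^ (δw / 8) := Real.rpow_le_rpow_of_exponent_le hNr.le hkδ
  have hrp : ∀ a b : ℝ, (N : ℝ) ^ a * (N : ℝ) ^ b = (N : ℝ) ^ (a + b) := fun a b => (Real.rpow_add hN0 a b).symm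
  have hcB1 : (B1.card : ℝ) ≤ (∏ i, (x i : ℝ)) * (N : ℝ) ^ (-(δw / 2)) := by
    have hcard : ((((univ : Finset (Fin (k + 1))) ×ˢ (US ×ˢ UT)).card : ℕ) : ℝ) =
        ((k : ℝ) + 1) * 2 ^ ((J + 3) + (J + 1) ^ k) := by
      rw [card_product, card_product, card_univ, Fintype.card_fin, hUS, hUT, card_powerset, card_powerset,
        card_range, Fintype.card_piFinset, prod_const, card_range, card_univ, Fintype.card_fin]
      push_cast
      rw [← pow_add]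
    calc (B1.card : ℝ) ≤ ∑ q ∈ (univ : Finset (Fin (k + 1))) ×ˢ (US ×ˢ UT),
          ((box.filter (fun m => ∃ h : Fin (k + 1) → ℕ, Nb β f ((N : ℝ) ^ δ) m h ∧
            BadOne N s (ε' / 8) q.1 (q.2.1 : Set ℕ) (q.2.2 : Set (Fin k → ℕ)) h)).card : ℝ) := by
          rw [hB1]
          exact_mod_cast card_biUnion_le
      _ ≤ ∑ q ∈ (univ : Finset (Fin (k + 1))) ×ˢ (US ×ˢ UT),
          (∏ i, (x i : ℝ)) * ((7 : ℝ) ^ k * (N : ℝ) ^ (k * δ) * (N : ℝ) ^ (-δw)) := sum_le_sum fun q _ =>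
          count_one (A := A + 1) (by omega) hN1 hδ.le (by linarith) hG x hx' β hβ' _ _ _
      _ = (((k : ℝ) + 1) * 2 ^ ((J + 3) + (J + 1) ^ k)) *
          ((∏ i, (x i : ℝ)) * ((7 : ℝ) ^ k * (N : ℝ) ^ (k * δ) * (N : ℝ) ^ (-δw))) := by
          rw [sum_const, nsmul_eq_mul, hcard]
      _ ≤ (N : ℝ) ^ (δw / 8) *
          ((∏ i, (x i : ℝ)) * ((N : ℝ) ^ (δw / 8) * (N : ℝ) ^ (δw / 8) * (N : ℝ) ^ (-δw))) := by
          apply mul_le_mul hcount _ (by positivity) (by positivity)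
          apply mul_le_mul_of_nonneg_left _ hPnn
          apply mul_le_mul_of_nonneg_right _ (by positivity)
          exact mul_le_mul h7k hkN (by positivity) (by positivity)
      _ = (∏ i, (x i : ℝ)) * (N : ℝ) ^ (δw / 8 + (δw / 8 + δw / 8 + -δw)) := by
          rw [hrp, hrp, ← hrp (δw / 8)]
          ring
      _ ≤ _ := by
          apply mul_le_mul_of_nonneg_left _ hPnn
          exact Real.rpow_le_rpow_of_exponent_le hNr.le (by linarith)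
  have hcB2 : (B2.card : ℝ) ≤ (∏ i, (x i : ℝ)) * (N : ℝ) ^ (-(δw / 2)) := by
    have hcard : ((((univ : Finset (Fin (k + 1))) ×ˢ (US2 ×ˢ UT)).card : ℕ) : ℝ) =
        ((k : ℝ) + 1) * 2 ^ ((J + 2 * M + 1) + (J + 1) ^ k) := by
      rw [card_product, card_product, card_univ, Fintype.card_fin, hUS2, hUT, card_powerset, card_powerset,
        card_range, Fintype.card_piFinset, prod_const, card_range, card_univ, Fintype.card_fin]
      push_cast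
      rw [← pow_add]
    have h2 : ((k : ℝ) + 1) * 2 ^ ((J + 2 * M + 1) + (J + 1) ^ k) ≤ (N : ℝ) ^ (δw / 8) * 2 ^ (2 * M) := by
      calc ((k : ℝ) + 1) * 2 ^ ((J + 2 * M + 1) + (J + 1) ^ k)
          ≤ ((k : ℝ) + 1) * 2 ^ (((J + 3) + (J + 1) ^ k) + 2 * M) := by
            apply mul_le_mul_of_nonneg_left _ (by positivity)
            exact pow_le_pow_right₀ (by norm_num) (by omega)
        _ = (((k : ℝ) + 1) * 2 ^ ((J + 3) + (J + 1) ^ k)) * 2 ^ (2 * M) := by rw [pow_add]; ring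
        _ ≤ _ := mul_le_mul_of_nonneg_right hcount (by positivity)
    have h3 := hN5 N (by omega)
    calc (B2.card : ℝ) ≤ ∑ q ∈ (univ : Finset (Fin (k + 1))) ×ˢ (US2 ×ˢ UT),
          ((box.filter (fun m => ∃ h : Fin (k + 1) → ℕ, Nb β f ((N : ℝ) ^ δ) m h ∧
            bad2 N M s e2 q.1 (q.2.1 : Set ℕ) (q.2.2 : Set (Fin k → ℕ)) h)).card : ℝ) := by
          rw [hB2]
          exact_mod_cast card_biUnion_le
      _ ≤ ∑ q ∈ (univ : Finset (Fin (k + 1))) ×ˢ (US2 ×ˢ UT),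
          (∏ i, (x i : ℝ)) * ((7 : ℝ) ^ k * (N : ℝ) ^ (k * δ) * (6 / e2 ^ 2 * (N : ℝ) ^ (-δw))) :=
          sum_le_sum fun q _ => count_two (A := A + 1) (by omega) hN1 hM1 hs1 hδ.le (by linarith) (by linarith) he20 hMδ
            (hpair N (by omega)) hG x hx' β hβ' hrange _ _ _
      _ = (((k : ℝ) + 1) * 2 ^ ((J + 2 * M + 1) + (J + 1) ^ k)) *
          ((∏ i, (x i : ℝ)) * ((7 : ℝ) ^ k * (N : ℝ) ^ (k * δ) * (6 / e2 ^ 2 * (N : ℝ) ^ (-δw)))) := by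
          rw [sum_const, nsmul_eq_mul, hcard]
      _ ≤ ((N : ℝ) ^ (δw / 8) * 2 ^ (2 * M)) *
          ((∏ i, (x i : ℝ)) * ((N : ℝ) ^ (δw / 8) * (N : ℝ) ^ (δw / 8) * (6 / e2 ^ 2 * (N : ℝ) ^ (-δw)))) := by
          apply mul_le_mul h2 _ (by positivity) (by positivity)
          apply mul_le_mul_of_nonneg_left _ hPnn
          apply mul_le_mul_of_nonneg_right _ (by positivity)
          exact mul_le_mul h7k hkN (by positivity) (by positivity)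
      _ = (∏ i, (x i : ℝ)) * ((N : ℝ) ^ (δw / 8) * (2 ^ (2 * M) * (6 / e2 ^ 2)) * ((N : ℝ) ^ (δw / 8) *
          (N : ℝ) ^ (δw / 8) * (N : ℝ) ^ (-δw))) := by ring
      _ ≤ (∏ i, (x i : ℝ)) * ((N : ℝ) ^ (δw / 8) * (N : ℝ) ^ (δw / 8) * ((N : ℝ) ^ (δw / 8) *
          (N : ℝ) ^ (δw / 8) * (N : ℝ) ^ (-δw))) := by
          apply mul_le_mul_of_nonneg_left _ hPnn
          apply mul_le_mul_of_nonneg_right _ (by positivity)
          exact mul_le_mul_of_nonneg_left h3 (by positivity)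
      _ = (∏ i, (x i : ℝ)) * (N : ℝ) ^ (-(δw / 2)) := by
          rw [hrp, hrp, hrp]
          congr 2
          ring
  have h2 : (2 : ℝ) ≤ (N : ℝ) ^ (δw / 8) := hN6 N (by omega)
  calc _ ≤ ((B1 ∪ B2).card : ℝ) := Nat.cast_le.2 (card_le_card hsub)
    _ ≤ (B1.card : ℝ) + B2.card := by exact_mod_cast card_union_le _ _
    _ ≤ (∏ i, (x i : ℝ)) * (N : ℝ) ^ (-(δw / 2)) + (∏ i, (x i : ℝ)) * (N : ℝ) ^ (-(δw / 2)) := add_le_add hcB1 hcB2
    _ = (∏ i, (x i : ℝ)) * (2 * (N : ℝ) ^ (-(δw / 2))) := by ring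
    _ ≤ (∏ i, (x i : ℝ)) * ((N : ℝ) ^ (δw / 8) * (N : ℝ) ^ (-(δw / 2))) := by
        apply mul_le_mul_of_nonneg_left _ hPnn
        exact mul_le_mul_of_nonneg_right h2 (by positivity)
    _ ≤ (∏ i, (x i : ℝ)) * (N : ℝ) ^ (-δ) := by
        apply mul_le_mul_of_nonneg_left _ hPnn
        rw [hrp]
        exact Real.rpow_le_rpow_of_exponent_le hNr.le (by linarith)

end Pool.Agent.Q56.OM
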