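import Pool.Agent.TH823.KB.Full2
import Pool.Agent.TH823.KB.Prod3
import Pool.Agent.Q56.TF.PSW3

/-!
# Boxes around tuples of members of real sequences: the counting lemmas
-/

set_option autoImplicit false

namespace Pool.Agent.Q56.OM

open Finset Polynomial
open Pool.Agent.TH823.OP (cn ind ind_bd fam fam_sh df df_bd cn_diff cn_close big_count om_count J_exists allJ)
open Pool.Agent.TH823.KB
open Pool.Agent.TH823.PS (NE GoodF PolyG tuple_count')
open Pool.Agent.H373R2.T7 (exI)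
open Pool.Agent.Q56.TF (WG Base wg_of_good)
open ArithmeticFunction (cardFactors)
open scoped ComplexConjugate

/-- boxes around tuples: one choice of the distinguished entry -/
lemma tuples_gen {k : ℕ} {F : Fin (k + 1) → ℕ → ℝ} {δ δ' R : ℝ} {N : ℕ}
    (hN : 1 ≤ N) (hδ0 : 0 ≤ δ') (hδ : δ' ≤ δ) (hR : 0 ≤ R) {i₀ : Fin (k + 1)} (x : Fin (k + 1) → ℕ)
    (β : Fin (k + 1) → ℝ) (P : (Fin k → ℤ) → ℤ → Prop)
    (h : ∀ b' : Fin k → ℤ, ∀ S : Finset ℕ, S ⊆ Icc 1 (x i₀) →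
      (∀ m ∈ S, ∃ b : ℤ, |(b : ℝ) - (β i₀ + F i₀ m)| ≤ (N : ℝ) ^ δ ∧ P b' b) → (S.card : ℝ) ≤ x i₀ * R)
    (bad : (Fin (k + 1) → ℕ) → Prop) [DecidablePred bad]
    (hbad : ∀ m, bad m → ∃ b : Fin (k + 1) → ℤ, (∀ i, |(b i : ℝ) - (β i + F i (m i))| ≤ (N : ℝ) ^ δ') ∧
      P (i₀.removeNth b) (b i₀)) :
    (((Fintype.piFinset fun i => Icc 1 (x i)).filter bad).card : ℝ) ≤
      (∏ i, (x i : ℝ)) * ((7 : ℝ) ^ k * (N : ℝ) ^ (k * δ') * R) := by
  classical
  have hN1 : (1 : ℝ) ≤ N := by exact_mod_cast hN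
  have hN0 : (0 : ℝ) < N := by linarith
  obtain ⟨W, hW⟩ : ∃ W : ℝ, W = (N : ℝ) ^ δ' := ⟨_, rfl⟩
  have hW1 : 1 ≤ W := by rw [hW]; exact Real.one_le_rpow hN1 hδ0
  have hWδ : W ≤ (N : ℝ) ^ δ := by rw [hW]; exact Real.rpow_le_rpow_of_exponent_le hN1 hδ
  obtain ⟨H, hH⟩ : ∃ H : ℕ, H = ⌈W⌉₊ + 1 := ⟨_, rfl⟩
  have hH1 : W + 1 ≤ H := by rw [hH]; push_cast; linarith [Nat.le_ceil W]
  have hH2 : (H : ℝ) < W + 2 := by rw [hH]; push_cast; linarith [Nat.ceil_lt_add_one (by linarith : 0 ≤ W)]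
  obtain ⟨T, hT⟩ : ∃ T : Finset (Fin k → ℤ), T = Fintype.piFinset fun _ => Icc (-(H : ℤ)) H := ⟨_, rfl⟩
  have hTc : (T.card : ℝ) ≤ 7 ^ k * (N : ℝ) ^ (k * δ') := by
    rw [hT, Fintype.card_piFinset]
    simp only [Int.card_Icc, prod_const, card_univ, Fintype.card_fin]
    have e1 : ((H : ℤ) + 1 - -(H : ℤ)).toNat = 2 * H + 1 := by omega
    rw [e1]
    have e2 : (N : ℝ) ^ (k * δ') = W ^ k := by
      rw [hW, ← Real.rpow_natCast, ← Real.rpow_mul hN0.le, mul_comm]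
    rw [e2, ← mul_pow]
    push_cast
    apply pow_le_pow_left₀ (by positivity)
    linarith
  obtain ⟨badt, hbt⟩ : ∃ badt : (Fin k → ℤ) → (Fin (k + 1) → ℕ) → Prop, badt = fun t m =>
      ∃ b : ℤ, |(b : ℝ) - (β i₀ + F i₀ (m i₀))| ≤ (N : ℝ) ^ δ ∧
        P (fun j => ⌊β (i₀.succAbove j) + F (i₀.succAbove j) (m (i₀.succAbove j))⌋ + t j) b := ⟨_, rfl⟩
  have h1 : ∀ t, (((Fintype.piFinset fun i => Icc 1 (x i)).filter (badt t)).card : ℝ) ≤
      (∏ i, (x i : ℝ)) * R := by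
    intro t
    have h2 := tuple_count' i₀ (fun i => Icc 1 (x i)) (badt t) (T := R) (by
      intro b hb
      rw [Nat.card_Icc, Nat.add_sub_cancel]
      refine h (fun j => ⌊β (i₀.succAbove j) + F (i₀.succAbove j) (b j)⌋ + t j) _ (filter_subset _ _) ?_
      intro m hm
      have h3 := (mem_filter.1 hm).2
      rw [hbt] at h3
      simp only [Fin.insertNth_apply_same, Fin.insertNth_apply_succAbove] at h3
      exact h3)
    simpa only [Nat.card_Icc, Nat.add_sub_cancel] using h2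
  have hsub : (Fintype.piFinset fun i => Icc 1 (x i)).filter bad ⊆
      T.biUnion (fun t => (Fintype.piFinset fun i => Icc 1 (x i)).filter (badt t)) := by
    intro m hm
    rw [mem_filter] at hm
    obtain ⟨b, hb1, hb2⟩ := hbad m hm.2
    rw [mem_biUnion]
    refine ⟨fun j => b (i₀.succAbove j) - ⌊β (i₀.succAbove j) + F (i₀.succAbove j) (m (i₀.succAbove j))⌋, ?_, ?_⟩
    · rw [hT, Fintype.mem_piFinset]
      intro j
      rw [mem_Icc]
      have h3 := hb1 (i₀.succAbove j)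
      rw [← hW] at h3
      obtain ⟨h4, h5⟩ := abs_le.1 h3
      have a1 := Int.floor_le (β (i₀.succAbove j) + F (i₀.succAbove j) (m (i₀.succAbove j)))
      have a2 := Int.lt_floor_add_one (β (i₀.succAbove j) + F (i₀.succAbove j) (m (i₀.succAbove j)))
      constructor
      · have : ((-(H : ℤ) : ℤ) : ℝ) ≤
            ((b (i₀.succAbove j) - ⌊β (i₀.succAbove j) + F (i₀.succAbove j) (m (i₀.succAbove j))⌋ : ℤ) : ℝ) := by
          push_cast
          linarith
        exact_mod_cast this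
      · have : ((b (i₀.succAbove j) - ⌊β (i₀.succAbove j) + F (i₀.succAbove j) (m (i₀.succAbove j))⌋ : ℤ) : ℝ) ≤
            ((H : ℤ) : ℝ) := by
          push_cast
          linarith
        exact_mod_cast this
    · rw [mem_filter]
      refine ⟨hm.1, ?_⟩
      rw [hbt]
      refine ⟨b i₀, (hb1 i₀).trans (by rw [← hW]; exact hWδ), ?_⟩
      have e : (fun j => ⌊β (i₀.succAbove j) + F (i₀.succAbove j) (m (i₀.succAbove j))⌋ +
          (b (i₀.succAbove j) - ⌊β (i₀.succAbove j) + F (i₀.succAbove j) (m (i₀.succAbove j))⌋)) =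
          i₀.removeNth b := by
        funext j
        unfold Fin.removeNth
        ring
      simp only
      rw [e]
      exact hb2
  calc (((Fintype.piFinset fun i => Icc 1 (x i)).filter bad).card : ℝ)
      ≤ ((T.biUnion (fun t => (Fintype.piFinset fun i => Icc 1 (x i)).filter (badt t))).card : ℝ) := by
        exact_mod_cast card_le_card hsub
    _ ≤ ∑ t ∈ T, (((Fintype.piFinset fun i => Icc 1 (x i)).filter (badt t)).card : ℝ) := by
        exact_mod_cast card_biUnion_le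
    _ ≤ ∑ _t ∈ T, (∏ i, (x i : ℝ)) * R := sum_le_sum fun t _ => h1 t
    _ = T.card * ((∏ i, (x i : ℝ)) * R) := by rw [sum_const, nsmul_eq_mul]
    _ ≤ (7 ^ k * (N : ℝ) ^ (k * δ')) * ((∏ i, (x i : ℝ)) * R) := by
        apply mul_le_mul_of_nonneg_right hTc (by positivity)
    _ = _ := by ring

/-- the set whose shift by `s` is its complement -/
def alt (s : ℕ) : Set ℕ := {l | Even (l / s)}

lemma df_alt {s : ℕ} (hs : 1 ≤ s) (n : ℕ) : ‖df s (fam (alt s)) 0 n‖ = 1 / 2 := by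
  unfold df fam ind alt
  have e : (cardFactors n + (0 + s)) / s = cardFactors n / s + 1 := by
    rw [zero_add]
    exact Nat.add_div_right _ hs
  simp only [Set.mem_ofPred_eq, e, add_zero, Nat.even_add_one]
  by_cases h : Even (cardFactors n / s)
  · simp [h]
  · simp [h]

/-- few members of the sequence are close to a given integer -/
lemma mult_of_wg {s A N x : ℕ} {ε δ c β : ℝ} {F : ℕ → ℝ} (hs : 1 ≤ s) (hA : 1 ≤ A) (hN : 1 ≤ N) (hε : ε < 1 / 4)
    (h : WG (df s (fam (alt s)) 0) A ε δ F c N) (hx1 : (x : ℝ) ^ c ≤ A * N) (hx2 : (N : ℝ) ^ (1 - δ) ≤ (x : ℝ) ^ c)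
    (hβ : |β| ≤ A * N) (b : ℕ) (S : Finset ℕ) (hS : S ⊆ Icc 1 x)
    (hb : ∀ m ∈ S, |(b : ℝ) - (β + F m)| ≤ (N : ℝ) ^ δ) : (S.card : ℝ) ≤ x * (N : ℝ) ^ (-δ) := by
  have hN0 : (0 : ℝ) < N := by exact_mod_cast (by omega : 0 < N)
  have key : ∀ n : ℕ, 1 ≤ n → ‖exI (df s (fam (alt s)) 0) ((n : ℤ) + b)‖ = 1 / 2 := by
    intro n hn
    unfold exI
    rw [if_pos (by omega), df_alt hs]
  refine h x hx1 hx2 β hβ 1 le_rfl (fun n => conj (exI (df s (fam (alt s)) 0) ((n : ℤ) + b))) ?_ S hS ?_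
  · intro n
    rw [RCLike.norm_conj]
    unfold exI
    split_ifs
    · rw [df_alt hs]; norm_num
    · rw [norm_zero]; exact zero_le_one
  · intro m hm
    refine ⟨b, by exact_mod_cast hb m hm, N, Nat.mul_le_mul_right _ hA, ?_⟩
    have e : ∑ n ∈ Icc 1 N, conj (exI (df s (fam (alt s)) 0) ((n : ℤ) + b)) *
        exI (df s (fam (alt s)) 0) (((1 : ℕ) : ℤ) * n + b) = (N : ℂ) / 4 := by
      rw [sum_congr rfl (g := fun _ => (1 : ℂ) / 4)]
      · rw [sum_const, Nat.card_Icc, Nat.add_sub_cancel, nsmul_eq_mul]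
        ring
      · intro n hn
        have h1 := key n (mem_Icc.1 hn).1
        rw [Nat.cast_one, one_mul, mul_comm, Complex.mul_conj, Complex.normSq_eq_norm_sq, h1]
        norm_num
    rw [e, norm_div, Complex.norm_natCast, Complex.norm_ofNat]
    linarith [mul_lt_mul_of_pos_right hε hN0]

end Pool.Agent.Q56.OM
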