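import Pool.Agent.Q56.OM.Gen

/-!
# Near invariance and independence for one tuple of shifts
-/

set_option autoImplicit false

namespace Pool.Agent.Q56.OM

open Finset Polynomial
open Pool.Agent.TH823.OP (cn ind ind_bd fam fam_sh df df_bd cn_diff cn_close big_count om_count J_exists allJ)
open Pool.Agent.TH823.KB
open Pool.Agent.TH823.PS (NE GoodF PolyG tuple_count')
open Pool.Agent.H373R2.T7 (exI)
open Pool.Agent.Q56.TF (WG Base wg_of_good)
open ArithmeticFunction (cardFactors)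
open scoped ComplexConjugate

/-- the correlation which has to be small -/
def BadOne {k : ℕ} (N s : ℕ) (e : ℝ) (i : Fin (k + 1)) (S : Set ℕ) (T : Set (Fin k → ℕ)) (h : Fin (k + 1) → ℕ) :
    Prop :=
  ∃ X ≤ N, e * N < ‖∑ n ∈ Icc 1 X, ind T (fun j => cardFactors (n + i.removeNth h j)) *
    exI (df s (fam S) 0) ((1 : ℕ) * n + (h i : ℤ))‖

lemma near_one {k N J s : ℕ} {ε : ℝ} (hε : 0 < ε) (hs2 : s ≤ 2) (h : Fin (k + 1) → ℕ)
    (hbc : (((Icc 1 N).filter fun n => ∃ j, J < cardFactors (n + h j)).card : ℝ) ≤ ε / 8 * N)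
    (hno : ∀ (i : Fin (k + 1)), ∀ S0 ∈ (range (J + 3)).powerset,
      ∀ T0 ∈ (Fintype.piFinset fun _ : Fin k => range (J + 1)).powerset,
      ¬ BadOne N s (ε / 8) i (S0 : Set ℕ) (T0 : Set (Fin k → ℕ)) h) :
    ∀ i S T X, X ≤ N → |cn X h i {l | l + s ∈ S} T - cn X h i S T| ≤ ε * N := by
  classical
  intro i S T X hX
  set S0 : Finset ℕ := (range (J + 3)).filter (· ∈ S) with hS0
  set T0 : Finset (Fin k → ℕ) := (Fintype.piFinset fun _ : Fin k => range (J + 1)).filter (· ∈ T) with hT0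
  have hcon := hno i S0 (mem_powerset.2 (filter_subset _ _)) T0 (mem_powerset.2 (filter_subset _ _))
  unfold BadOne at hcon
  push Not at hcon
  have h1 := hcon X hX
  have h2 : |cn X h i {l | l + s ∈ (S0 : Set ℕ)} T0 - cn X h i S0 T0| ≤ ε / 4 * N := by
    have h3 := congrArg norm (cn_diff X s h i (S0 : Set ℕ) (T0 : Set (Fin k → ℕ)))
    rw [Complex.norm_real, Real.norm_eq_abs, norm_mul, Complex.norm_ofNat] at h3
    simp only [eval_X] at h3
    rw [h3]
    linarith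
  have hmono : (((Icc 1 X).filter fun n => ∃ j, J < cardFactors (n + h j)).card : ℝ) ≤ ε / 8 * N := by
    refine le_trans ?_ hbc
    apply Nat.cast_le.2
    exact card_le_card (filter_subset_filter _ (Icc_subset_Icc_right hX))
  have hTT : ∀ n, (¬ ∃ j, J < cardFactors (n + h j)) →
      ((fun j => cardFactors (n + h (i.succAbove j))) ∈ (T0 : Set (Fin k → ℕ)) ↔
        (fun j => cardFactors (n + h (i.succAbove j))) ∈ T) := by
    intro n hn
    push Not at hn
    rw [mem_coe, hT0, mem_filter, Fintype.mem_piFinset]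
    constructor
    · exact fun h => h.2
    · intro h4
      refine ⟨fun j => ?_, h4⟩
      rw [mem_range]
      have := hn (i.succAbove j)
      omega
  have h3 : |cn X h i {l | l + s ∈ S} T - cn X h i {l | l + s ∈ (S0 : Set ℕ)} T0| ≤ ε / 8 * N := by
    refine le_trans (cn_close X h i _ _ _ _ (fun n => ∃ j, J < cardFactors (n + h j)) ?_) hmono
    intro n _ hn
    rw [hTT n hn]
    push Not at hn
    have h4 := hn i
    rw [Set.mem_ofPred_eq, Set.mem_ofPred_eq, mem_coe, hS0, mem_filter, mem_range]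
    constructor
    · rintro ⟨h5, h6⟩
      exact ⟨⟨by omega, h5⟩, h6⟩
    · rintro ⟨h5, h6⟩
      exact ⟨h5.2, h6⟩
  have h4 : |cn X h i S T - cn X h i S0 T0| ≤ ε / 8 * N := by
    refine le_trans (cn_close X h i _ _ _ _ (fun n => ∃ j, J < cardFactors (n + h j)) ?_) hmono
    intro n _ hn
    rw [hTT n hn]
    push Not at hn
    have h4 := hn i
    rw [mem_coe, hS0, mem_filter, mem_range]
    constructor
    · rintro ⟨h5, h6⟩
      exact ⟨⟨by omega, h5⟩, h6⟩
    · rintro ⟨h5, h6⟩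
      exact ⟨h5.2, h6⟩
  have e1 : cn X h i {l | l + s ∈ S} T - cn X h i S T =
      (cn X h i {l | l + s ∈ S} T - cn X h i {l | l + s ∈ (S0 : Set ℕ)} T0) +
      (cn X h i {l | l + s ∈ (S0 : Set ℕ)} T0 - cn X h i S0 T0) - (cn X h i S T - cn X h i S0 T0) := by ring
  have h5 : |cn X h i {l | l + s ∈ S} T - cn X h i S T| ≤ ε / 8 * N + ε / 4 * N + ε / 8 * N := by
    rw [e1]
    exact (abs_sub _ _).trans (add_le_add ((abs_add_le _ _).trans (add_le_add h3 h2)) h4)
  have h6 : 0 ≤ ε * N := by positivity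
  linarith

/-- the law of one value is nearly invariant -/
lemma p1_inv {N s B : ℕ} {ε1 δ : ℝ} (hN : 1 < N) (hB : 1 ≤ B) (hδ : 0 < δ) (hε1 : 0 < ε1)
    (hG : ∀ S : Set ℕ, PolyG (df s (fam S) 0) B 1 (X : ℤ[X]) ε1 δ N)
    (hsmall : 2 * ((N : ℝ) ^ (1 - δ) + 1) ≤ ε1 * N) (S : Set ℕ) :
    |p1 N 0 {l | l + s ∈ S} - p1 N 0 S| ≤ 3 * ε1 * N := by
  classical
  have hNr : (1 : ℝ) < N := by exact_mod_cast hN
  have hN0 : (0 : ℝ) < N := by linarith
  set x' : ℕ := ⌈(N : ℝ) ^ (1 - δ)⌉₊ with hx'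
  have hx'1 : (N : ℝ) ^ (1 - δ) ≤ x' := Nat.le_ceil _
  have hx'2 : (x' : ℝ) < (N : ℝ) ^ (1 - δ) + 1 := Nat.ceil_lt_add_one (by positivity)
  have hx'0 : 0 < x' := Nat.ceil_pos.2 (by positivity)
  have hx'N : x' ≤ N := by
    rw [hx', Nat.ceil_le]
    calc (N : ℝ) ^ (1 - δ) ≤ (N : ℝ) ^ (1 : ℝ) := Real.rpow_le_rpow_of_exponent_le hNr.le (by linarith)
      _ = N := Real.rpow_one _
  have h1 := hG S x' (by
      rw [natDegree_X, pow_one]; exact hx'N.trans (Nat.le_mul_of_pos_left N (by omega))) (by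
      rw [natDegree_X, pow_one]; exact hx'1) 0 (by simp; positivity) (fun _ => 1) (fun _ _ => 1) (fun _ => le_rfl) (by
      intro _
      simp only [norm_one, one_pow, sum_const, Nat.card_Icc, Nat.add_sub_cancel, nsmul_eq_mul, mul_one, Nat.div_one]
      push_cast
      exact le_rfl)
  obtain ⟨m, hm, hgood⟩ : ∃ m ∈ Icc 1 x', ∀ l : Fin 1, ∀ Y : ℕ, 1 * Y ≤ B * N →
      ‖∑ n ∈ Icc 1 Y, (1 : ℂ) * exI (df s (fam S) 0) ((1 : ℕ) * n + (0 + (X : ℤ[X]).eval (m : ℤ)))‖ ≤ ε1 * N := by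
    by_contra hcon
    push Not at hcon
    rw [filter_true_of_mem (by
      intro m hm hall
      obtain ⟨l, Y, hY, hbig⟩ := hcon m hm
      exact absurd (hall l Y hY) (not_le.2 hbig))] at h1
    rw [Nat.card_Icc, Nat.add_sub_cancel] at h1
    have e1 : (0 : ℝ) < x' := by exact_mod_cast hx'0
    have e2 : (N : ℝ) ^ (-δ) < 1 := Real.rpow_lt_one_of_one_lt_of_neg hNr (by linarith)
    have e3 := mul_lt_mul_of_pos_left e2 e1
    linarith
  have h2 := hgood 0 N (by rw [one_mul]; exact Nat.le_mul_of_pos_left N (by omega))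
  rw [mem_Icc] at hm
  have h3 : p1 N m {l | l + s ∈ S} - p1 N m S = cn N (fun _ : Fin 1 => m) 0 {l | l + s ∈ S} Set.univ -
      cn N (fun _ : Fin 1 => m) 0 S Set.univ := by
    have e2 : ∀ S : Set ℕ, cn N (fun _ : Fin 1 => m) 0 S Set.univ = p1 N m S := by
      intro S
      unfold p1 pn cn
      congr! 3
      simp
    rw [e2, e2]
  have h4 : |p1 N m {l | l + s ∈ S} - p1 N m S| ≤ 2 * (ε1 * N) := by
    rw [h3]
    have h5 := congrArg norm (cn_diff N s (fun _ : Fin 1 => m) 0 S Set.univ)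
    rw [Complex.norm_real, Real.norm_eq_abs, norm_mul, Complex.norm_ofNat] at h5
    rw [h5]
    apply mul_le_mul_of_nonneg_left _ (by norm_num)
    refine le_trans (le_of_eq ?_) h2
    congr 1
    apply sum_congr rfl
    intro n _
    have e7 : (0 : ℤ) + (X : ℤ[X]).eval (m : ℤ) = (X : ℤ[X]).eval (m : ℤ) := zero_add _
    rw [e7]
    congr 1
    unfold ind
    rw [if_pos (Set.mem_univ _)]
  have e3 := p1_shift N m {l | l + s ∈ S}
  have e4 := p1_shift N m S
  have e5 : (m : ℝ) ≤ x' := by exact_mod_cast hm.2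
  rw [abs_le] at *
  constructor <;> linarith [h4.1, h4.2, e3.1, e3.2, e4.1, e4.2]

end Pool.Agent.Q56.OM
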